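import Pool.Agent.U882.EC.Supp

/-!
# The `C^r` closing lemma inside supports of invariant measures and inside minimal sets

`DiffM n N r` is `Diff^r(N)` and `strongTop n N r` its strong (Whitney) `C^r` topology (the usual one,
`N` being compact), `V n` is `ℝⁿ` (`Pool/Agent/H718R2/G0.lean`). `Closable n N r F z`: every
neighbourhood of `F` in `Diff^r(N)` contains some `G` for which `z` is periodic. `GoodChart n N χ z`: `χ`
is a chart of the smooth structure of `N` with `χ z = 0` whose target contains the closed unit ball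
(`Pool/Agent/W564/SC/Defs.lean`). `Per F`: the periodic points (`Pool/Agent/TH80/OMS/SymDefs.lean`).

`Bal χ R`: the ball `‖χ u‖ < R` in the domain of the chart; `BalAt χ x R`: the ball `‖χ u - χ x‖ < R`.
`Adm k p`: `p > 0` and `2^(-p) + 3^(-p) + ⋯ + (k+1)^(-p) ≤ 1`; `AdmUpTo r p`: `Adm k p` for all finite
`k ≤ r`. The following notions are in `Pool/Agent/U882/EC/Defs.lean` and `Supp.lean`.

* `ClosableIn n N r F K z`: every neighbourhood of `F` in `Diff^r(N)` contains some `G` with a periodic
  point `y ∈ K`, as close to `z` as we like, of a period `m` as large as we like, whose orbit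
  `y, G y, …, G^(m-1) y` is the segment `y, F y, …, F^(m-1) y` of the orbit of `F`.
* `LogNull p S χ`: near the centre of the chart `S` has zero Hausdorff measure for the gauge
  `(log 1/t)^(-1/p)`.
* `MeasureLaw F K χ k ρ`: for all exponents `p` with `Adm k p` there is a `C`, such that all invariant
  probability measures `μ` of `F` with `μ(Kᶜ) = 0` satisfy
  `log (1/(2R)) μ(B(x,R))^p ≤ C (1 + log (1/δ)) μ(B(x,2δ))^p` for all `x` in `Bal χ ρ` and
  `0 < R ≤ δ ≤ ρ`.
* `DenseOrbits F K`: all forward orbits of points of `K` are dense in `K`.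
* `PeriodicApprox n N r F K`: in every neighbourhood of `F` there are `G` with a periodic orbit which is a
  segment of an orbit of `F` in `K`, meets any given finitely many open sets which meet `K`, and over
  which the averages of any given finitely many functions with uniformly convergent Birkhoff averages
  on `K` are near their limits.
-/

set_option autoImplicit false

open scoped Manifold ContDiff Topology
open Set MeasureTheory

universe u

namespace Pool.Agent.Results.MP_1e8d1a_an.ClosingMeasures

open Pool.Agent.H718R2.G Pool.Agent.TH80.OMS Pool.Agent.W564.SC Pool.Agent.U882.FW Pool.Agent.U882.EC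

/-- The set `S` contains a countable intersection of open dense subsets of `Diff^r(N)`. -/
def BaireSet (n : ℕ) (N : Type u) [TopologicalSpace N] [ChartedSpace (V n) N] (r : ℕ∞)
    (S : Set (DiffM n N r)) : Prop :=
  ∃ R : ℕ → Set (DiffM n N r), (∀ j, IsOpen[strongTop n N r] (R j)) ∧
    (∀ j, @Dense _ (strongTop n N r) (R j)) ∧ ∀ f, (∀ j, f ∈ R j) → f ∈ S

/-- `μ` is an invariant probability measure of `F` which is carried by `S`. -/
def InvOn {X : Type*} [MeasurableSpace X] (F : X → X) (μ : Measure X) (S : Set X) : Prop :=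
  IsProbabilityMeasure μ ∧ MeasurePreserving F μ μ ∧ μ Sᶜ = 0

/-- The law for the measures of small balls holds near the centre of `χ`, for some finite order
`2 ≤ k ≤ r`. -/
def Regular {n : ℕ} {N : Type u} [TopologicalSpace N] [MeasurableSpace N] (r : ℕ∞) (F : N → N)
    (K : Set N) (χ : OpenPartialHomeomorph N (V n)) : Prop :=
  ∃ (k : ℕ) (ρ : ℝ), 2 ≤ k ∧ (k : ℕ∞) ≤ r ∧ 0 < ρ ∧ MeasureLaw F K χ k ρ

/-- Let `N` be a closed manifold and `2 ≤ r ≤ ∞`; let `p` be an exponent which is admissible for all
finite orders `≤ r`, for instance `p = 7/4` (any `r`, `r = ∞` included) or `p = 4/5` (`r = 2`).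
(1) The `C^r` closing lemma holds on, and inside, the supports of the invariant measures which are
carried by sets of zero Hausdorff measure for the gauge `(log 1/t)^(-1/p)`: if `μ` is an invariant
probability measure of `F ∈ Diff^r(N)` with `μ(Sᶜ) = 0`, `z ∈ supp μ`, and `S` is null near `z`, then `F`
can be closed at `z`, and it can be closed inside `supp μ` at `z`.
(2) The same for minimal sets `K` which are null near one of their points; and such a `K` is the limit
of periodic orbits of maps near `F` which are segments of orbits in `K`.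
(3) For every closed `K` with `F(K) ⊆ K` and every `z ∈ K`: `F` can be closed inside `K` at `z`, or all
invariant probability measures of `F|K` satisfy near `z`, with uniform constants, the law
`μ(B(x,R)) ≤ (C (1 + log(1/δ)) / log(1/(2R)))^(1/p) μ(B(x,2δ))`.
(4) For GENERIC `F ∈ Diff^r(N)` (a Baire set) this law holds near every `z ∉ closure(Per(F))` for all
invariant probability measures of `F`, and if such a measure is carried by a set which is null near `z`,
then `z` is not in its support. -/
theorem result {n : ℕ} {N : Type u} [TopologicalSpace N] [T2Space N] [CompactSpace N]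
    [ChartedSpace (V n) N] [IsManifold (𝓡 n) ∞ N] [MeasurableSpace N] [BorelSpace N] (r : ℕ∞)
    (hr : 2 ≤ r) :
    (∀ (F : DiffM n N r) (μ : Measure N) (S : Set N), InvOn F μ S → ∀ z ∈ μ.support,
      ∀ χ, GoodChart n N χ z → ∀ p, AdmUpTo r p → LogNull p S χ →
      Closable n N r F z ∧ ClosableIn n N r F μ.support z) ∧
    (∀ (F : DiffM n N r) (K : Set N), IsClosed K → MapsTo F K K → DenseOrbits F K → ∀ z ∈ K,
      ∀ χ, GoodChart n N χ z → ∀ p, AdmUpTo r p → LogNull p K χ →
      ClosableIn n N r F K z ∧ PeriodicApprox n N r F K) ∧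
    (∀ (F : DiffM n N r) (K : Set N), IsClosed K → MapsTo F K K → ∀ z ∈ K,
      ∀ χ, GoodChart n N χ z → ClosableIn n N r F K z ∨ Regular r F K χ) ∧
    BaireSet n N r {F | ∀ z, z ∉ closure (Per F) → ∀ χ, GoodChart n N χ z →
      Regular r F univ χ ∧ ∀ (μ : Measure N) (S : Set N), InvOn F μ S →
        ∀ p, AdmUpTo r p → LogNull p S χ → z ∉ μ.support} ∧
    AdmUpTo r (7 / 4) ∧ AdmUpTo 2 (4 / 5) := by
  refine ⟨fun F μ S hμ z hz χ hχ p hp hS => ⟨?_, ?_⟩, fun F K hK hFK hD z hz χ hχ p hp hS => ?_,
    fun F K hK hFK z hz χ hχ => closableIn_or_law hr F K hK hFK z hz χ hχ, ?_, admUpTo_all r,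
    admUpTo_two⟩
  · exact closable_support hr hp F μ hμ.1 hμ.2.1 S hμ.2.2 z hz χ hχ hS
  · exact closableIn_support hr hp F μ hμ.1 hμ.2.1 S hμ.2.2 z hz χ hχ hS
  · have h := closableIn_minimal hr hp F K hK hFK hD z hz χ hχ hS
    exact ⟨h, periodicApprox_of_closableIn F K hK hD z h⟩
  · obtain ⟨R, h1, h2, h3⟩ := generic_measures (n := n) (N := N) hr
    exact ⟨R, h1, h2, fun F hF z hz χ hχ => ⟨(h3 F hF z hz χ hχ).1,
      fun μ S hμ p hp hS => (h3 F hF z hz χ hχ).2 μ S p hμ.1 hμ.2.1 hμ.2.2 hp hS⟩⟩

end Pool.Agent.Results.MP_1e8d1a_an.ClosingMeasures
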