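import Pool.Agent.U882.FW.Rec

/-!
# Where the closing lemma fails, the distance of a return is bounded below by the number of visits

`DiffM n N r` is `Diff^r(N)` and `strongTop n N r` its strong (Whitney) `C^r` topology (the usual one,
`N` being compact), `V n` is `ℝⁿ` (`Pool/Agent/H718R2/G0.lean`). `Closable n N r F z`: every
neighbourhood of `F` in `Diff^r(N)` contains some `G` for which `z` is periodic. `GoodChart n N χ z`:
`χ` is a chart of the smooth structure of `N` with `χ z = 0` whose target contains the closed unit ball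
(`Pool/Agent/W564/SC/Defs.lean`). `Per F`: the periodic points (`Pool/Agent/TH80/OMS/SymDefs.lean`).

`Bal χ R`, `BalAt χ y R`: the balls `‖χ u‖ < R`, `‖χ u - χ y‖ < R` in the domain of the chart;
`visits F W y m`: the number of the visits `F^i y ∈ W`, `1 ≤ i ≤ m`; `Adm k p`: the exponent `p > 0`
satisfies `2^(-p) + 3^(-p) + ⋯ + (k+1)^(-p) ≤ 1` (`Pool/Agent/U882/FW/Defs.lean`, `DefsZ.lean`).

* `ProductLaw F χ k ρ`: for some `c > 0` and all `y`, `F^m y` in the ball `Bal χ ρ` and all `R ≤ ρ` there is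
  a set `T` of at most `k` times `0 < i < m` with `‖F^i y - y‖ < R` and
  `‖F^m y - y‖ ≥ c R^(k - |T|) ∏_(i ∈ T) ‖F^i y - y‖`.
* `VisitsLaw F χ k ρ`: for every admissible exponent `p` there is a `C` with
  `‖F^m y - y‖ ≥ exp (- C (1 + log (1/R)) s^p)` for all `y`, `F^m y` in `Bal χ ρ` and all `R ≤ ρ`, where `s`
  is the number of the visits to the ball of radius `R` with centre `y` up to the time `m` (or `1`).
-/

set_option autoImplicit false

open scoped Manifold ContDiff Topology

universe u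

namespace Pool.Agent.Results.MP_1e8d1a_an.ReturnsVersusVisits

open Pool.Agent.H718R2.G Pool.Agent.TH80.OMS Pool.Agent.W564.SC Pool.Agent.U882.FW

/-- The set `S` contains a countable intersection of open dense subsets of `Diff^r(N)`. -/
def BaireSet (n : ℕ) (N : Type u) [TopologicalSpace N] [ChartedSpace (V n) N] (r : ℕ∞)
    (S : Set (DiffM n N r)) : Prop :=
  ∃ R : ℕ → Set (DiffM n N r), (∀ j, IsOpen[strongTop n N r] (R j)) ∧
    (∀ j, @Dense _ (strongTop n N r) (R j)) ∧ ∀ f, (∀ j, f ∈ R j) → f ∈ S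

/-- The product law and the law of the visits hold near the centre of the chart `χ`, for some finite
order `2 ≤ k ≤ r`. -/
def ReturnLaws {n : ℕ} {N : Type u} [TopologicalSpace N] (r : ℕ∞) (F : N → N)
    (χ : OpenPartialHomeomorph N (V n)) : Prop :=
  ∃ (k : ℕ) (ρ : ℝ), 2 ≤ k ∧ (k : ℕ∞) ≤ r ∧ 0 < ρ ∧ ProductLaw F χ k ρ ∧ VisitsLaw F χ k ρ

/-- Let `N` be a closed manifold and `2 ≤ r ≤ ∞`.
For EVERY `F ∈ Diff^r(N)` and every point `z`: either `F` can be `C^r`-closed at `z`, or for some finite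
order `k ≤ r` the returns near `z` satisfy the product law and the law of the visits.
For GENERIC `F ∈ Diff^r(N)` (a Baire set) these laws hold near every point outside `closure(Per(F))`.
The exponent `7/4` is admissible for all orders (so for all dimensions and all `r`, `r = ∞` included),
and `4/5` for the order `2`. -/
theorem result {n : ℕ} {N : Type u} [TopologicalSpace N] [T2Space N] [CompactSpace N]
    [ChartedSpace (V n) N] [IsManifold (𝓡 n) ∞ N] (r : ℕ∞) (hr : 2 ≤ r) :
    (∀ (F : DiffM n N r) (z : N) (χ : OpenPartialHomeomorph N (V n)), GoodChart n N χ z →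
      Closable n N r F z ∨ ReturnLaws r F χ) ∧
    BaireSet n N r {F | ∀ z, z ∉ closure (Per F) → ∀ χ, GoodChart n N χ z → ReturnLaws r F χ} ∧
    (∀ k, Adm k (7 / 4)) ∧ Adm 2 (4 / 5) := by
  refine ⟨fun F z χ hχ => ?_, ?_, adm_all, adm_two⟩
  · by_cases hz : Closable n N r F z
    · exact Or.inl hz
    · right
      obtain ⟨k, ρ₀, hk, hkr, hρ₀, h⟩ := laws_of_not_closable hr F z χ hχ hz
      exact ⟨k, ρ₀, hk, hkr, hρ₀, (h ρ₀ hρ₀ le_rfl).product, (h ρ₀ hρ₀ le_rfl).visits⟩
  · obtain ⟨R, h1, h2, h3⟩ := generic_laws (n := n) (N := N) hr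
    refine ⟨R, h1, h2, fun F hF z hz χ hχ => ?_⟩
    obtain ⟨⟨k, ρ₀, hk, hkr, hρ₀, h⟩, -⟩ := h3 F hF z hz χ hχ
    exact ⟨k, ρ₀, hk, hkr, hρ₀, (h ρ₀ hρ₀ le_rfl).product, (h ρ₀ hρ₀ le_rfl).visits⟩

end Pool.Agent.Results.MP_1e8d1a_an.ReturnsVersusVisits
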