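import Pool.Agent.U898.SV.Cor

/-!
# The `C^r` closing lemma at limits of periodic solvmanifolds with affine return maps

`V n = ℝⁿ`, `DiffM n N r = Diff^r(N)`, `strongTop n N r` is its strong (Whitney) `C^r` topology (the
usual one, `N` being compact), `IsPer G z`: `z` is periodic for `G` (`Pool/Agent/H718R2/G0.lean`);
`ClosableAt n N r F z`: every neighbourhood of `F` in `Diff^r(N)` contains some `G` for which `z` is
periodic, `IsTorusAct e n N R`: `R` is a smooth action of `ℝᵉ/ℤᵉ` (`Pool/Agent/TH382/QC/Defs.lean`).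

From `Pool/Agent/R189/NC/Defs.lean` and `Cor.lean` (starting library): `IsNilAction`, `IsNilPt` (smooth
action of a nilpotent Lie group; the orbit of the point is a nilmanifold `G / Γ`, `Γ` cocompact and
arithmetic), `Equi`, `IsSkew`, `BaseClosable`, `itH`.

New, from `Pool/Agent/U898/SV/Defs.lean`:
* `IsLieAction n N κ O act`: smooth action of the Lie group `S`, given by a faithful representation `κ`
  by real matrices, on the open set `O ⊆ N`;
* `IsSolvPt n κ O act p G ι y`: the orbit `S y ≅ S / Γ` is a compact solvmanifold: `p : S → ℝᵏ` is a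
  homomorphism with kernel the nilpotent group `G`, smooth one parameter subgroups of `S` lie over the
  coordinate axes, `p(Γ) = ℤᵏ`, and `G y ≅ G / (G ∩ Γ)` is a nilmanifold (`IsNilPt`). (By Mostow and
  Malcev all lattices `Γ` of simply connected solvable Lie groups `S` are of this kind, with `G` the
  nilradical.)
* `IsSolvPer n N F y`: `y` lies on a periodic solvmanifold `C = S y`, and the first return map of `F` to
  `C` is affine, `g y ↦ h φ(g) y`, with an ARBITRARY `h ∈ S` and an ARBITRARY automorphism `φ` of `S`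
  with `φ(G) = G`. Nothing is required of `F` outside of the orbit of `C`.
-/

set_option autoImplicit false

open scoped Manifold ContDiff Topology

universe u

namespace Pool.Agent.Results.MP_1e8d1a_an.SolvAffineClosing

open Pool.Agent.H718R2.G Pool.Agent.TH382.QC Pool.Agent.R189.NC Pool.Agent.U898.SV

/-- the case of affine extensions: let `F y = A(y) · F₀(y)`, with `A` invariant under the action `ρ` of
`S` and `F₀ (g y) = φ(g) F₀(y)`. If the orbit of `z` is a compact solvmanifold and `F₀` can be closed at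
`z` modulo `S`, then `F` can be closed at `z`. -/
def AffineExtensions : Prop :=
  ∀ (n D k d : ℕ) (N : Type u) [TopologicalSpace N] [T2Space N] [CompactSpace N]
    [ChartedSpace (V n) N] [IsManifold (𝓡 n) ∞ N] (r : ℕ∞) (S : Type) [Group S]
    [TopologicalSpace S] [IsTopologicalGroup S] (κ : S →* Md D) (ρ : S → N → N)
    (p : S → Fin k → ℝ) (G : Subgroup S) (ι : G →* Md d) (φ : MulAut S) (A : N → S)
    (F₀ F : DiffM n N r) (z : N), IsLieAction n N κ Set.univ ρ →
    IsSolvPt n κ Set.univ ρ p G ι z → (∀ g, φ g ∈ G ↔ g ∈ G) →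
    IsSkew ρ φ.toMonoidHom A F₀ F → BaseClosable n N r ρ φ.toMonoidHom F₀ z →
    ClosableAt n N r F z

/-- quasi-periodic affine cocycles: `F y = A(y) · R_α Φ(y)`, where `R` is a smooth action of `𝕋ᵉ` which
commutes with the action of `S` and with `Φ`, `Φ (g y) = φ(g) Φ(y)`, `A` is invariant under `S`, and `Φ`
maps the orbit of `z`, a compact solvmanifold, to itself. -/
def QuasiPeriodicCocycles : Prop :=
  ∀ (n D k d e : ℕ) (N : Type u) [TopologicalSpace N] [T2Space N] [CompactSpace N]
    [ChartedSpace (V n) N] [IsManifold (𝓡 n) ∞ N] (r : ℕ∞) (S : Type) [Group S]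
    [TopologicalSpace S] [IsTopologicalGroup S] (κ : S →* Md D) (ρ : S → N → N)
    (p : S → Fin k → ℝ) (G : Subgroup S) (ι : G →* Md d) (φ : MulAut S) (A : N → S)
    (R : V e → N → N) (α : V e) (Φ F : DiffM n N r) (z : N), IsLieAction n N κ Set.univ ρ →
    IsSolvPt n κ Set.univ ρ p G ι z → (∀ g, φ g ∈ G ↔ g ∈ G) → IsTorusAct e n N R →
    (∀ a g y, R a (ρ g y) = ρ g (R a y)) → Equi ρ φ.toMonoidHom Φ →
    (∀ a y, Φ (R a y) = R a (Φ y)) → (∀ g y, A (ρ g y) = A y) →
    (∀ y, F y = ρ (A y) (R α (Φ y))) → (∃ g, Φ z = ρ g z) → ClosableAt n N r F z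

/-- Let `N` be a closed manifold, `F ∈ Diff^r(N)` (`0 ≤ r ≤ ∞`) and `z ∈ N`.
1. Suppose that arbitrarily `C^r`-close to `F` there are diffeomorphisms `F'` (for example `F' = F`) for
   which `z` is a limit of points lying on periodic solvmanifolds on which the return map is affine. Then
   the conclusion of the `C^r` closing lemma holds for `F` at `z`.
2. The same for affine extensions `F y = A(y) · F₀(y)` with solvmanifolds as fibres, `A` invariant under
   `S`, `F₀ (g y) = φ(g) F₀(y)`, of maps `F₀` which can be closed modulo `S`: for example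
   `F (x, g Γ) = (f(x), A(x) φ(g) Γ)` on `M × S / Γ`, if `f ∈ Diff^r(M)` can be closed at `x`.
3. The same for quasi-periodic affine cocycles with values in `S`: for example
   `F (x, g Γ) = (x + α, A(x) φ(g) Γ)` on `𝕋ᵉ × S / Γ`, for all `α` and all smooth `A : 𝕋ᵉ → S`, at all
   points. -/
theorem result :
    (∀ (n : ℕ) (N : Type u) [TopologicalSpace N] [T2Space N] [CompactSpace N]
      [ChartedSpace (V n) N] [IsManifold (𝓡 n) ∞ N] (r : ℕ∞) (F : DiffM n N r) (z : N),
      (∀ U : Set (DiffM n N r), IsOpen[strongTop n N r] U → F ∈ U →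
        ∃ F' ∈ U, z ∈ closure {y | IsSolvPer n N F' y}) →
      ∀ U : Set (DiffM n N r), IsOpen[strongTop n N r] U → F ∈ U → ∃ G ∈ U, IsPer G z) ∧
    AffineExtensions.{u} ∧ QuasiPeriodicCocycles.{u} := by
  refine ⟨?_, ?_, ?_⟩
  · intro n N _ _ _ _ _ r F z h
    exact main F z h
  · intro n D k d N _ _ _ _ _ r S _ _ _ κ ρ p G ι φ A F₀ F z hρ hz hφ hF hc
    exact extension hρ hφ F₀ F hF z hz hc
  · intro n D k d e N _ _ _ _ _ r S _ _ _ κ ρ p G ι φ A R α Φ F z hρ hz hφ hR hRρ hΦ hΦR hA hF hΦz
    exact quasiperiodic hρ hφ hR hRρ α Φ hΦ hΦR hA F hF z hz hΦz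

end Pool.Agent.Results.MP_1e8d1a_an.SolvAffineClosing
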