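import Pool.Agent.U882.FW.Rec

/-!
# The `C^r` closing lemma for thin sets, and the size of the gap `Ω(f) ∖ closure(Per(f))`

`DiffM n N r` is `Diff^r(N)` and `strongTop n N r` its strong (Whitney) `C^r` topology (the usual one,
`N` being compact), `V n` is `ℝⁿ`, `IsRec f x`: `x` is recurrent, `m ↦ f^m(x)` is not a homeomorphism of
`ℤ` onto its image (`Pool/Agent/H718R2/G0.lean`). `Closable n N r F z`: every neighbourhood of `F` in
`Diff^r(N)` contains some `G` for which `z` is periodic. `GoodChart n N χ z`: `χ` is a chart of the smooth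
structure of `N` with `χ z = 0` whose target contains the closed unit ball
(`Pool/Agent/W564/SC/Defs.lean`). `Per F`, `Omega F`: the periodic and the nonwandering points
(`Pool/Agent/TH80/OMS/SymDefs.lean`, `Defs.lean`). `OrbitClosure f x`: the closure of the orbit of `x`.

`Bal χ R`: the ball `‖χ u‖ < R` in the domain of the chart. `NonWandIn F K u`: `u` is a nonwandering point
of `F|K`, the restriction of `F` to `K`. `Adm k p`: `p > 0` and `2^(-p) + 3^(-p) + ⋯ + (k+1)^(-p) ≤ 1`;
`AdmUpTo r p`: `Adm k p` for all finite `k ≤ r`. `ThinNear p K χ`: for some `ρ > 0` and every `C` the part of `K`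
in the ball `Bal χ ρ` is covered by finitely many balls, say `s`, of a radius
`ε < exp (- C (1 + log s) s^p)` (this holds if the lower logarithmic box dimension
`liminf log N(ε) / log log (1/ε)` of this part of `K` is less than `1/p`).

* `CoverLaw F χ k ρ`: for all admissible exponents `p` there is a `C`, such that for every closed `K` with
  `F(K) ⊆ K` and a nonwandering point of `F|K` in `Bal χ ρ`: if the nonwandering points of `F|K` in
  `Bal χ (2ρ)` are covered by `s` balls of radius `ε`, then `ε ≥ exp (- C (1 + log s) s^p)`.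
* `MeetsAnnuli F χ k C ρ`: for every closed `K` with `F(K) ⊆ K` and every nonwandering point `w` of `F|K`
  in `Bal χ ρ`, all annuli `a ≤ ‖u - w‖ ≤ C a^(1/k)`, `0 < a ≤ 1/C`, contain nonwandering points of `F|K`.
-/

set_option autoImplicit false

open scoped Manifold ContDiff Topology

universe u

namespace Pool.Agent.Results.MP_1e8d1a_an.ThinRecurrence

open Pool.Agent.H718R2.G Pool.Agent.TH80.OMS Pool.Agent.W564.SC Pool.Agent.U882.FW

/-- The set `S` contains a countable intersection of open dense subsets of `Diff^r(N)`. -/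
def BaireSet (n : ℕ) (N : Type u) [TopologicalSpace N] [ChartedSpace (V n) N] (r : ℕ∞)
    (S : Set (DiffM n N r)) : Prop :=
  ∃ R : ℕ → Set (DiffM n N r), (∀ j, IsOpen[strongTop n N r] (R j)) ∧
    (∀ j, @Dense _ (strongTop n N r) (R j)) ∧ ∀ f, (∀ j, f ∈ R j) → f ∈ S

/-- All relative nonwandering sets are large near the centre of the chart `χ`, for some finite order
`2 ≤ k ≤ r`. -/
def Thick {n : ℕ} {N : Type u} [TopologicalSpace N] (r : ℕ∞) (F : N → N)
    (χ : OpenPartialHomeomorph N (V n)) : Prop :=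
  ∃ (k : ℕ) (ρ₀ : ℝ), 2 ≤ k ∧ (k : ℕ∞) ≤ r ∧ 0 < ρ₀ ∧ ∀ ρ, 0 < ρ → ρ ≤ ρ₀ →
    CoverLaw F χ k ρ ∧ ∃ C : ℝ, 0 < C ∧ MeetsAnnuli F χ k C ρ

/-- Let `N` be a closed manifold and `2 ≤ r ≤ ∞`; let `p` be an exponent which is admissible for all
finite orders `≤ r`, for instance `p = 7/4` (any `r`, `r = ∞` included) or `p = 4/5` (`r = 2`).
(1) The `C^r` closing lemma holds at all recurrent points with thin orbit closures: if `x` is recurrent
for `F ∈ Diff^r(N)` and its orbit closure is `p`-thin near `x`, then every neighbourhood of `F` contains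
some `G` for which `x` is periodic.
(2) For every `F ∈ Diff^r(N)` and every `z`: `F` can be `C^r`-closed at `z`, or all relative nonwandering
sets of `F` are thick near `z`.
(3) For GENERIC `F ∈ Diff^r(N)` (a Baire set) they are thick near every `z ∉ closure(Per(F))`; and the
set `Ω(F) ∖ closure(Per(F))` is not `p`-thin near any of its points. -/
theorem result {n : ℕ} {N : Type u} [TopologicalSpace N] [T2Space N] [CompactSpace N]
    [ChartedSpace (V n) N] [IsManifold (𝓡 n) ∞ N] (r : ℕ∞) (hr : 2 ≤ r) :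
    (∀ (F : DiffM n N r) (x : N) (χ : OpenPartialHomeomorph N (V n)), GoodChart n N χ x →
      IsRec F.toHomeomorph x → ∀ p, AdmUpTo r p → ThinNear p (OrbitClosure F.toHomeomorph x) χ →
      Closable n N r F x) ∧
    (∀ (F : DiffM n N r) (z : N) (χ : OpenPartialHomeomorph N (V n)), GoodChart n N χ z →
      Closable n N r F z ∨ Thick r F χ) ∧
    BaireSet n N r {F | ∀ z, z ∉ closure (Per F) → ∀ χ, GoodChart n N χ z → Thick r F χ ∧
      (z ∈ Omega F → ∀ p, AdmUpTo r p → ¬ ThinNear p (Omega F \ closure (Per F)) χ)} ∧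
    AdmUpTo r (7 / 4) ∧ AdmUpTo 2 (4 / 5) := by
  refine ⟨fun F x χ hχ hx p hp hthin => closable_of_thin_orbit hr hp F x hχ hx hthin,
    fun F z χ hχ => ?_, ?_, admUpTo_all r, admUpTo_two⟩
  · by_cases hz : Closable n N r F z
    · exact Or.inl hz
    · right
      obtain ⟨k, ρ₀, hk, hkr, hρ₀, h⟩ := laws_of_not_closable hr F z χ hχ hz
      exact ⟨k, ρ₀, hk, hkr, hρ₀, fun ρ h1 h2 => ⟨(h ρ h1 h2).cover, (h ρ h1 h2).annuli⟩⟩
  · obtain ⟨R, h1, h2, h3⟩ := generic_laws (n := n) (N := N) hr
    refine ⟨R, h1, h2, fun F hF z hz χ hχ => ?_⟩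
    obtain ⟨⟨k, ρ₀, hk, hkr, hρ₀, h⟩, h4⟩ := h3 F hF z hz χ hχ
    exact ⟨⟨k, ρ₀, hk, hkr, hρ₀, fun ρ h1 h2 => ⟨(h ρ h1 h2).cover, (h ρ h1 h2).annuli⟩⟩, h4⟩

end Pool.Agent.Results.MP_1e8d1a_an.ThinRecurrence
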